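import Pool.Agent.H36.Lelong

/-!
# Lelong numbers of quasi-psh Green functions on `ℂℙⁿ`, `n ≥ 2`

For every `n ≥ 2` and every `ν ∈ [0, 1]` there are a point `a ∈ ℂℙⁿ` and an `ω`-psh Green function
`G ∈ DMA(ℂℙⁿ, ω)` with pole at `a` whose Lelong number at `a` is exactly `ν`. In particular
irrational Lelong numbers occur.

The function is `G = lim 2^{-k} log max(|P_k|, |Z_2|^{2^k}, …, |Z_n|^{2^k}) - log ‖Z‖` with
`P_0 = Z_1`, `P_{k+1} = P_k² + ε_k Z_0^{2^{k+1} - b_{k+1}} Z_2^{b_{k+1}}`,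
`b_k = max(1, ⌈2^k ν⌉)`, and `ε_k > 0` decreasing fast.

All definitions are in `Pool/Agent/H36/GreenDefs.lean`.
-/

open MeasureTheory Filter Topology

namespace Pool.Agent.Results.MP_50bf8a_an.GreenLelong

open Pool.Agent.H36

/-- Sanity check of the normalisation: `(ω + dd^c φ)ⁿ` has total mass one. -/
theorem total_mass (n : ℕ) (hn : 1 ≤ n) (φ : CP n → ℝ) (h : SmoothOmegaPSH φ) :
    maSmooth φ Set.univ = 1 := maSmooth_univ hn h

/-- Sanity check: the function `0` is smooth and `ω`-psh. -/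
theorem zero_omegaPSH (n : ℕ) : SmoothOmegaPSH (fun _ : CP n => (0 : ℝ)) := by
  apply smoothOmegaPSH_of_spsh
  intro i
  have h : pot (fun _ : CP n => (0 : ℝ)) i = fsPot := by
    funext z; simp [pot]
  rw [h]
  exact spsh_fsPot

theorem result : ∀ n : ℕ, 2 ≤ n → ∀ ν : ℝ, 0 ≤ ν → ν ≤ 1 →
    ∃ (a : CP n) (G : CP n → EReal), IsGreen G a ∧ HasLelong G a ν ∧
      ∃ ψ : ℕ → CP n → ℝ, (∀ j, SmoothOmegaPSH (ψ j)) ∧ (∀ x, Antitone fun j => ψ j x) ∧
        ∀ x, Tendsto (fun j => (ψ j x : EReal)) atTop (𝓝 (G x)) := by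
  intro n hn ν h0 h1
  obtain ⟨m, rfl⟩ : ∃ m, n = m + 2 := ⟨n - 2, by omega⟩
  obtain ⟨G, hG⟩ := exists_green m h0 h1
  exact ⟨chart 0 0, G, hG⟩

end Pool.Agent.Results.MP_50bf8a_an.GreenLelong
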